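import Mathlib

/-!
# The edge count of a graph and its maximum forcing number

Every graph `G` on `2 n` vertices (`n ≥ 1`) with a perfect matching satisfies
`e(G) ≥ n ^ 2 / (n - F(G))`, where `F(G)` is the maximum forcing number.

Proof.  Let `M` be a perfect matching and let `x` range over the endpoints of smaller degree of the
edges of `M`.  Let the edges `j ≠ i` of `M` that meet a neighbour of `x i` be the out-neighbours of
`i`; there are at most `deg (x i) - 1` of them.  Greedily (keep an edge of smallest degree, remove
its out-neighbours) one gets an acyclic set `K` with `|K| ≥ ∑ 1 / deg (x i) ≥ n ^ 2 / e(G)`, and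
`M \ K` is a forcing set of `M`.
-/

set_option autoImplicit false

namespace Pool.Agent.Results.MP_f5b231_co.ForcingEdgeBound

open Finset

variable {V : Type*}

/-- `S` is a forcing set of the perfect matching `M` of `G`: `S` consists of edges of `M`, and `M`
is the only perfect matching of `G` that contains `S` -/
def IsForcing (G : SimpleGraph V) (M : G.Subgraph) (S : Set (Sym2 V)) : Prop :=
  S ⊆ M.edgeSet ∧ ∀ M' : G.Subgraph, M'.IsPerfectMatching → S ⊆ M'.edgeSet → M' = M

/-- the forcing number `f(G, M)`: the least size of a forcing set of `M` -/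
noncomputable def forcingNumber (G : SimpleGraph V) (M : G.Subgraph) : ℕ :=
  sInf {k | ∃ S : Set (Sym2 V), IsForcing G M S ∧ S.ncard = k}

/-- the maximum forcing number `F(G)`: the largest forcing number of a perfect matching of `G` -/
noncomputable def maxForcing (G : SimpleGraph V) : ℕ :=
  sSup {k | ∃ M : G.Subgraph, M.IsPerfectMatching ∧ forcingNumber G M = k}

/-- greedy choice of an acyclic set -/
theorem greedy {ι : Type*} [DecidableEq ι] (A : ι → Finset ι) (R : Finset ι) :
    ∃ K ⊆ R, (∀ T ⊆ K, T.Nonempty → ∃ t ∈ T, ∀ j ∈ T, j ≠ t → j ∉ A t) ∧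
      ∑ i ∈ R, (1 : ℝ) / (1 + (A i).card) ≤ K.card := by
  induction R using Finset.strongInduction with
  | H R ih =>
    rcases R.eq_empty_or_nonempty with rfl | hR
    · exact ⟨∅, by simp, by
        intro T hT hT'
        rw [Finset.subset_empty.1 hT] at hT'
        simp at hT', by simp⟩
    · obtain ⟨v, hv, hmin⟩ := Finset.exists_min_image R (fun i => (A i).card) hR
      have hsub : (R \ (insert v (A v))) ⊂ R := by
        refine Finset.ssubset_iff_subset_ne.2 ⟨Finset.sdiff_subset, fun h => ?_⟩
        have : v ∈ R \ (insert v (A v)) := by rw [h]; exact hv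
        simp at this
      obtain ⟨K, hK, hac, hsum⟩ := ih _ hsub
      have hvK : v ∉ K := fun h => by
        have := hK h
        simp at this
      refine ⟨insert v K, ?_, ?_, ?_⟩
      · intro i hi
        rcases Finset.mem_insert.1 hi with rfl | hi
        · exact hv
        · exact (Finset.mem_sdiff.1 (hK hi)).1
      · intro T hT hTne
        by_cases hvT : v ∈ T
        · refine ⟨v, hvT, fun j hj hjv hjA => ?_⟩
          have hjK : j ∈ K := by
            rcases Finset.mem_insert.1 (hT hj) with h | h
            · exact absurd h hjv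
            · exact h
          have := (Finset.mem_sdiff.1 (hK hjK)).2
          exact this (Finset.mem_insert_of_mem hjA)
        · refine hac T (fun i hi => ?_) hTne
          rcases Finset.mem_insert.1 (hT hi) with h | h
          · exact absurd (h ▸ hi) hvT
          · exact h
      · rw [Finset.card_insert_of_notMem hvK]
        have hsplit : ∑ i ∈ R, (1 : ℝ) / (1 + (A i).card) =
            ∑ i ∈ R \ (insert v (A v)), (1 : ℝ) / (1 + (A i).card) +
              ∑ i ∈ R ∩ (insert v (A v)), (1 : ℝ) / (1 + (A i).card) := by
          rw [← Finset.sum_union]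
          · congr 1
            ext i
            simp only [Finset.mem_union, Finset.mem_sdiff, Finset.mem_inter]
            tauto
          · rw [Finset.disjoint_left]
            intro i h1 h2
            exact (Finset.mem_sdiff.1 h1).2 (Finset.mem_inter.1 h2).2
        have hle : ∑ i ∈ R ∩ (insert v (A v)), (1 : ℝ) / (1 + (A i).card) ≤ 1 := by
          calc ∑ i ∈ R ∩ (insert v (A v)), (1 : ℝ) / (1 + (A i).card)
              ≤ ∑ _i ∈ R ∩ (insert v (A v)), (1 : ℝ) / (1 + (A v).card) := by
                refine Finset.sum_le_sum fun i hi => ?_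
                have h1 : (A v).card ≤ (A i).card := hmin i (Finset.mem_inter.1 hi).1
                have h2 : ((A v).card : ℝ) ≤ (A i).card := by exact_mod_cast h1
                have h3 : (0 : ℝ) ≤ (A v).card := Nat.cast_nonneg _
                apply one_div_le_one_div_of_le <;> linarith
            _ = ((R ∩ (insert v (A v))).card : ℝ) * (1 / (1 + (A v).card)) := by
                rw [Finset.sum_const, nsmul_eq_mul]
            _ ≤ (1 + (A v).card : ℝ) * (1 / (1 + (A v).card)) := by
                have h1 : (R ∩ (insert v (A v))).card ≤ 1 + (A v).card := by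
                  calc (R ∩ (insert v (A v))).card ≤ (insert v (A v)).card :=
                        Finset.card_le_card Finset.inter_subset_right
                    _ ≤ (A v).card + 1 := Finset.card_insert_le _ _
                    _ = 1 + (A v).card := by ring
                have h2 : ((R ∩ (insert v (A v))).card : ℝ) ≤ 1 + (A v).card := by
                  exact_mod_cast h1
                have h3 : (0 : ℝ) ≤ 1 / (1 + (A v).card) := by positivity
                exact mul_le_mul_of_nonneg_right h2 h3
            _ = 1 := by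
                have : (1 + (A v).card : ℝ) ≠ 0 := by positivity
                field_simp
        rw [hsplit]
        push_cast
        linarith

/-- every perfect matching has a small forcing set -/
theorem forcing_le [Fintype V] (G : SimpleGraph V) (n : ℕ) (hn : 1 ≤ n)
    (hV : Fintype.card V = 2 * n) (M : G.Subgraph) (hM : M.IsPerfectMatching) :
    (forcingNumber G M : ℝ) ≤ n - (n : ℝ) ^ 2 / G.edgeSet.ncard ∧ 0 < G.edgeSet.ncard := by
  classical
  have hex : ∀ (N : G.Subgraph), N.IsPerfectMatching → ∃ p : V → V, ∀ v, N.Adj v (p v) ∧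
      ∀ y, N.Adj v y → y = p v := by
    intro N hN
    have : ∀ v, ∃ w, N.Adj v w ∧ ∀ y, N.Adj v y → y = w := fun v => hN.1 (hN.2 v)
    choose p hp using this
    exact ⟨p, hp⟩
  obtain ⟨p, hp⟩ := hex M hM
  have hpp : ∀ v, p (p v) = v := fun v => ((hp (p v)).2 v (hp v).1.symm).symm
  have hadj : ∀ v, G.Adj v (p v) := fun v => (hp v).1.adj_sub
  have hne : ∀ v, p v ≠ v := fun v h => by
    have := hadj v
    rw [h] at this
    exact G.loopless.irrefl v this
  have hpinj : ∀ u v, p u = p v → u = v := fun u v h => by rw [← hpp u, h, hpp]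
  have hdpp : ∀ v, G.degree (p (p v)) = G.degree v :=
    fun v => congrArg (fun w => G.degree w) (hpp v)
  set e := Fintype.equivFin V with he
  set R : Finset V := univ.filter (fun v => G.degree v < G.degree (p v) ∨
    (G.degree v = G.degree (p v) ∧ e v < e (p v))) with hR
  have hR1 : ∀ v, v ∈ R ∨ p v ∈ R := by
    intro v
    simp only [hR, Finset.mem_filter, Finset.mem_univ, true_and, hdpp, hpp]
    rcases lt_trichotomy (G.degree v) (G.degree (p v)) with h | h | h
    · exact Or.inl (Or.inl h)
    · rcases lt_trichotomy (e v) (e (p v)) with h' | h' | h'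
      · exact Or.inl (Or.inr ⟨h, h'⟩)
      · exact absurd (e.injective h').symm (hne v)
      · exact Or.inr (Or.inr ⟨h.symm, h'⟩)
    · exact Or.inr (Or.inl h)
  have hR2 : ∀ v, v ∈ R → p v ∉ R := by
    intro v hv hv'
    simp only [hR, Finset.mem_filter, Finset.mem_univ, true_and, hdpp, hpp] at hv hv'
    rcases hv with h | ⟨h, h'⟩ <;> rcases hv' with h1 | ⟨h1, h1'⟩
    · omega
    · omega
    · omega
    · exact absurd h' (not_lt.2 h1'.le)
  have huniv : R ∪ R.image p = univ := by
    ext v
    simp only [Finset.mem_union, Finset.mem_image, Finset.mem_univ, iff_true]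
    rcases hR1 v with h | h
    · exact Or.inl h
    · exact Or.inr ⟨p v, h, hpp v⟩
  have hdisj : Disjoint R (R.image p) := by
    rw [Finset.disjoint_left]
    intro v hv hv'
    obtain ⟨u, hu, rfl⟩ := Finset.mem_image.1 hv'
    exact hR2 u hu hv
  have hcardR : R.card = n := by
    have h1 : (R ∪ R.image p).card = R.card + (R.image p).card :=
      Finset.card_union_of_disjoint hdisj
    rw [huniv, Finset.card_univ, hV,
      Finset.card_image_of_injective R (fun u v h => hpinj u v h)] at h1
    omega
  have hdegsum : ∑ v ∈ R, G.degree v ≤ G.edgeFinset.card := by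
    have h1 : ∑ v, G.degree v = 2 * G.edgeFinset.card := G.sum_degrees_eq_twice_card_edges
    have h2 : ∑ v, G.degree v = ∑ v ∈ R, G.degree v + ∑ v ∈ R, G.degree (p v) := by
      rw [← huniv, Finset.sum_union hdisj,
        Finset.sum_image (fun u _ v _ h => hpinj u v h)]
    have h3 : ∑ v ∈ R, G.degree v ≤ ∑ v ∈ R, G.degree (p v) := by
      refine Finset.sum_le_sum fun v hv => ?_
      simp only [hR, Finset.mem_filter, Finset.mem_univ, true_and] at hv
      rcases hv with h | h
      · exact h.le
      · exact h.1.le
    omega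
  set A : V → Finset V := fun v => R.filter (fun u => u ≠ v ∧ (G.Adj v u ∨ G.Adj v (p u))) with hA
  have hAcard : ∀ v ∈ R, (A v).card + 1 ≤ G.degree v := by
    intro v hv
    have h1 : (A v).card ≤ ((G.neighborFinset v).erase (p v)).card := by
      refine Finset.card_le_card_of_injOn (fun u => if G.Adj v u then u else p u) ?_ ?_
      · intro u hu
        have hu' : u ∈ A v := hu
        simp only [hA, Finset.mem_filter] at hu'
        obtain ⟨huR, huv, hadj'⟩ := hu'
        show (if G.Adj v u then u else p u) ∈ (G.neighborFinset v).erase (p v)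
        rw [Finset.mem_erase, SimpleGraph.mem_neighborFinset]
        split_ifs with hc
        · refine ⟨fun h => ?_, hc⟩
          exact hR2 v hv (h ▸ huR)
        · refine ⟨fun h => huv (hpinj u v h), ?_⟩
          rcases hadj' with h | h
          · exact absurd h hc
          · exact h
      · intro u hu w hw huw
        have hu' : u ∈ A v := hu
        have hw' : w ∈ A v := hw
        simp only [hA, Finset.mem_filter] at hu' hw'
        have huw' : (if G.Adj v u then u else p u) = (if G.Adj v w then w else p w) := huw
        split_ifs at huw' with h1 h2 h2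
        · exact huw'
        · exact absurd (huw' ▸ hu'.1) (hR2 w hw'.1)
        · exact absurd (huw' ▸ hw'.1) (hR2 u hu'.1)
        · exact hpinj u w huw'
    have h2 : p v ∈ G.neighborFinset v := by
      rw [SimpleGraph.mem_neighborFinset]; exact hadj v
    have h3 := Finset.card_erase_add_one h2
    rw [SimpleGraph.card_neighborFinset_eq_degree] at h3
    omega
  obtain ⟨K, hKR, hac, hsum⟩ := greedy A R
  have hepos : 0 < G.edgeFinset.card := by
    have hRne : R.Nonempty := Finset.card_pos.1 (by omega)
    obtain ⟨v, hv⟩ := hRne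
    have h1 := hAcard v hv
    have h2 : G.degree v ≤ ∑ v ∈ R, G.degree v :=
      Finset.single_le_sum (f := fun v => G.degree v) (fun _ _ => Nat.zero_le _) hv
    omega
  have hncard : G.edgeSet.ncard = G.edgeFinset.card := by
    rw [← SimpleGraph.coe_edgeFinset, Set.ncard_coe_finset]
  have hKcard : (n : ℝ) ^ 2 / G.edgeFinset.card ≤ K.card := by
    have hpos : ∀ v ∈ R, (0 : ℝ) < G.degree v := fun v hv => by
      have := hAcard v hv
      have h' : 0 < G.degree v := by omega
      exact_mod_cast h'
    have h1 : (∑ _v ∈ R, (1 : ℝ)) ^ 2 / ∑ v ∈ R, (G.degree v : ℝ) ≤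
        ∑ v ∈ R, (1 : ℝ) ^ 2 / (G.degree v : ℝ) :=
      Finset.sq_sum_div_le_sum_sq_div R (fun _ => (1 : ℝ)) hpos
    have h2 : ∑ v ∈ R, (1 : ℝ) ^ 2 / (G.degree v : ℝ) ≤
        ∑ v ∈ R, (1 : ℝ) / (1 + (A v).card) := by
      refine Finset.sum_le_sum fun v hv => ?_
      rw [one_pow]
      have h3 : ((A v).card : ℝ) + 1 ≤ G.degree v := by exact_mod_cast hAcard v hv
      have h4 : (0 : ℝ) ≤ (A v).card := Nat.cast_nonneg _
      apply one_div_le_one_div_of_le <;> linarith
    have h3 : (∑ _v ∈ R, (1 : ℝ)) = n := by
      rw [Finset.sum_const, nsmul_eq_mul, mul_one, hcardR]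
    have h4 : ∑ v ∈ R, (G.degree v : ℝ) ≤ G.edgeFinset.card := by exact_mod_cast hdegsum
    have h5 : (0 : ℝ) < ∑ v ∈ R, (G.degree v : ℝ) := by
      refine Finset.sum_pos hpos (Finset.card_pos.1 (by omega))
    rw [h3] at h1
    calc (n : ℝ) ^ 2 / G.edgeFinset.card ≤ (n : ℝ) ^ 2 / ∑ v ∈ R, (G.degree v : ℝ) := by
          apply div_le_div_of_nonneg_left (by positivity) h5 h4
      _ ≤ _ := h1
      _ ≤ _ := h2
      _ ≤ _ := hsum
  -- the forcing set
  set S : Set (Sym2 V) := (fun v => s(v, p v)) '' (↑(R \ K) : Set V) with hS
  have hforce : IsForcing G M S := by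
    refine ⟨?_, ?_⟩
    · rintro _ ⟨v, -, rfl⟩
      exact (hp v).1
    · intro M' hM' hSM'
      obtain ⟨q, hq⟩ := hex M' hM'
      have hkey : ∀ v ∈ R, M'.Adj v (p v) := by
        by_contra hcon
        push Not at hcon
        obtain ⟨v₀, hv₀R, hv₀⟩ := hcon
        have hmem : ∀ v ∈ R, v ∉ K → M'.Adj v (p v) := by
          intro v hv hvK
          have : s(v, p v) ∈ M'.edgeSet := hSM' ⟨v, by
            rw [Finset.mem_coe, Finset.mem_sdiff]; exact ⟨hv, hvK⟩, rfl⟩
          exact this
        obtain ⟨t, htT, ht⟩ := hac (K.filter (fun v => ¬ M'.Adj v (p v)))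
          (Finset.filter_subset _ _) ⟨v₀, by
            rw [Finset.mem_filter]
            refine ⟨?_, hv₀⟩
            by_contra h
            exact hv₀ (hmem v₀ hv₀R h)⟩
        rw [Finset.mem_filter] at htT
        obtain ⟨htK, htadj⟩ := htT
        have htR := hKR htK
        have hqt := (hq t).1
        have hqne : q t ≠ p t := fun h => htadj (h ▸ hqt)
        have hqG : G.Adj t (q t) := hqt.adj_sub
        -- the edge of `M` at `q t`
        obtain ⟨u, huR, hu⟩ : ∃ u ∈ R, q t = u ∨ q t = p u := by
          rcases hR1 (q t) with h | h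
          · exact ⟨q t, h, Or.inl rfl⟩
          · exact ⟨p (q t), h, Or.inr (hpp _).symm⟩
        have hut : u ≠ t := by
          rintro rfl
          rcases hu with h | h
          · rw [h] at hqG
            exact G.loopless.irrefl _ hqG
          · exact hqne h
        have huA : u ∈ A t := by
          simp only [hA, Finset.mem_filter]
          refine ⟨huR, hut, ?_⟩
          rcases hu with h | h
          · exact Or.inl (h ▸ hqG)
          · exact Or.inr (h ▸ hqG)
        have hu' : M'.Adj u (p u) := by
          by_cases huK : u ∈ K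
          · by_contra hcon
            exact ht u (Finset.mem_filter.2 ⟨huK, hcon⟩) hut huA
          · exact hmem u huR huK
        rcases hu with h | h
        · rw [h] at hqt
          have h1 := (hq u).2 t hqt.symm
          have h2 := (hq u).2 (p u) hu'
          rw [← h2] at h1
          exact hR2 u huR (h1 ▸ htR)
        · rw [h] at hqt
          have h1 := (hq (p u)).2 t hqt.symm
          have h2 := (hq (p u)).2 u hu'.symm
          rw [← h2] at h1
          exact hut h1.symm
      have hkey2 : ∀ v, M'.Adj v (p v) := by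
        intro v
        rcases hR1 v with h | h
        · exact hkey v h
        · have := hkey _ h
          rw [hpp] at this
          exact this.symm
      refine SimpleGraph.Subgraph.ext ?_ ?_
      · rw [hM.2.verts_eq_univ, hM'.2.verts_eq_univ]
      · funext a b
        refine propext ⟨fun h => ?_, fun h => ?_⟩
        · have h1 := (hq a).2 b h
          have h2 := (hq a).2 (p a) (hkey2 a)
          rw [h1, ← h2]
          exact (hp a).1
        · rw [(hp a).2 b h]
          exact hkey2 a
  have hScard : S.ncard ≤ n - K.card := by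
    calc S.ncard ≤ (↑(R \ K) : Set V).ncard := Set.ncard_image_le (Finset.finite_toSet _)
      _ = (R \ K).card := Set.ncard_coe_finset _
      _ = n - K.card := by rw [Finset.card_sdiff_of_subset hKR, hcardR]
  have hf : forcingNumber G M ≤ S.ncard := Nat.sInf_le ⟨S, hforce, rfl⟩
  have hKn : K.card ≤ n := hcardR ▸ Finset.card_le_card hKR
  have hf2 : forcingNumber G M + K.card ≤ n := by omega
  have hf3 : (forcingNumber G M : ℝ) + K.card ≤ n := by exact_mod_cast hf2
  rw [hncard]
  exact ⟨by linarith, hepos⟩

/-- Let `G` be a graph on `2 n` vertices, `n ≥ 1`, with a perfect matching, and let `F(G)` be its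
maximum forcing number.  Then `F(G) < n` and `e(G) ≥ n ^ 2 / (n - F(G))`. -/
theorem result [Fintype V] (G : SimpleGraph V) (n : ℕ) (hn : 1 ≤ n)
    (hV : Fintype.card V = 2 * n) (hG : ∃ M : G.Subgraph, M.IsPerfectMatching) :
    maxForcing G < n ∧ (n : ℝ) ^ 2 / ((n : ℝ) - maxForcing G) ≤ G.edgeSet.ncard := by
  have hmem : maxForcing G ∈ {k | ∃ M : G.Subgraph, M.IsPerfectMatching ∧
      forcingNumber G M = k} := by
    refine Nat.sSup_mem ?_ ?_
    · obtain ⟨M, hM⟩ := hG
      exact ⟨_, M, hM, rfl⟩
    · refine ⟨n, ?_⟩
      rintro k ⟨M, hM, rfl⟩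
      have h := (forcing_le G n hn hV M hM).1
      have h1 : (0 : ℝ) ≤ (n : ℝ) ^ 2 / G.edgeSet.ncard := by positivity
      have h2 : (forcingNumber G M : ℝ) ≤ n := by linarith
      exact_mod_cast h2
  obtain ⟨M, hM, hk⟩ := hmem
  obtain ⟨h1, h2⟩ := forcing_le G n hn hV M hM
  rw [hk] at h1
  have hn' : (0 : ℝ) < n := by exact_mod_cast hn
  have h2' : (0 : ℝ) < G.edgeSet.ncard := by exact_mod_cast h2
  have h3 : 0 < (n : ℝ) ^ 2 / G.edgeSet.ncard := by positivity
  have h4 : (n : ℝ) ^ 2 / G.edgeSet.ncard ≤ (n : ℝ) - maxForcing G := by linarith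
  refine ⟨?_, ?_⟩
  · have : (maxForcing G : ℝ) < n := by linarith
    exact_mod_cast this
  · rw [div_le_iff₀ (by linarith)]
    rw [div_le_iff₀ h2'] at h4
    linarith

end Pool.Agent.Results.MP_f5b231_co.ForcingEdgeBound
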